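import Pool.Agent.H2.NF.S3

/-!
# NF, row ISO2: isotropic ternary forms with the same determinant
-/

set_option autoImplicit false

namespace Pool.NF.Iso25

open Polynomial Matrix Pool.HYP Pool.TOW Pool.AVS Pool.T1

section Std

variable {L : Type} [Field L]

/-- The standard basis of an isotropic ternary form. -/
theorem std (h2 : (2 : L) ≠ 0) (A : Matrix (Fin 3) (Fin 3) L) (hA : Aᵀ = A) (hd : A.det ≠ 0)
    (h : SplM 1 A) : ∃ (P : Matrix (Fin 3) (Fin 3) L) (c : L), P.det ≠ 0 ∧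
      Pᵀ * A * P = !![0, 1, 0; 1, 0, 0; 0, 0, c] := by
  obtain ⟨E, hli, hE⟩ := h
  obtain ⟨e, he⟩ : ∃ e, e = E 0 := ⟨_, rfl⟩
  have hne : e ≠ 0 := by rw [he]; exact hli.ne_zero 0
  have hee : e ⬝ᵥ (A *ᵥ e) = 0 := by rw [he]; exact hE 0 0
  have hAe : A *ᵥ e ≠ 0 := fun h => hne (Matrix.eq_zero_of_mulVec_eq_zero hd h)
  have hsym : ∀ x y : Fin 3 → L, x ⬝ᵥ (A *ᵥ y) = y ⬝ᵥ (A *ᵥ x) := by
    intro x y
    rw [Matrix.dotProduct_mulVec, ← Matrix.mulVec_transpose, hA, dotProduct_comm]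
  obtain ⟨i, hi⟩ := Function.ne_iff.1 hAe
  obtain ⟨f₀, hf₀⟩ : ∃ f₀ : Fin 3 → L, f₀ ⬝ᵥ (A *ᵥ e) = 1 := by
    refine ⟨Pi.single i ((A *ᵥ e) i)⁻¹, ?_⟩
    rw [single_dotProduct]
    exact inv_mul_cancel₀ hi
  obtain ⟨q, hq⟩ : ∃ q, q = f₀ ⬝ᵥ (A *ᵥ f₀) := ⟨_, rfl⟩
  obtain ⟨f, hf⟩ : ∃ f, f = f₀ - (q / 2) • e := ⟨_, rfl⟩
  have hef₀ : e ⬝ᵥ (A *ᵥ f₀) = 1 := by rw [hsym, hf₀]
  have hfe : f ⬝ᵥ (A *ᵥ e) = 1 := by
    rw [hf, sub_dotProduct, smul_dotProduct, hee, hf₀, smul_zero, sub_zero]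
  have hef : e ⬝ᵥ (A *ᵥ f) = 1 := by rw [hsym, hfe]
  have hff : f ⬝ᵥ (A *ᵥ f) = 0 := by
    have h1 : ∀ z : Fin 3 → L, f ⬝ᵥ z = f₀ ⬝ᵥ z - (q / 2) * (e ⬝ᵥ z) := by
      intro z
      rw [hf, sub_dotProduct, smul_dotProduct, smul_eq_mul]
    rw [h1, hef]
    have h3 : f₀ ⬝ᵥ (A *ᵥ f) = q - q / 2 := by
      rw [hf, Matrix.mulVec_sub, Matrix.mulVec_smul, dotProduct_sub, dotProduct_smul, hf₀, ← hq,
        smul_eq_mul, mul_one]
    rw [h3]
    field_simp
    ring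
  obtain ⟨w, hw⟩ : ∃ w, w = (A *ᵥ e) ⨯₃ (A *ᵥ f) := ⟨_, rfl⟩
  have hwe : w ⬝ᵥ (A *ᵥ e) = 0 := by
    rw [hw, dotProduct_comm, dot_self_cross]
  have hwf : w ⬝ᵥ (A *ᵥ f) = 0 := by
    rw [hw, dotProduct_comm, dot_cross_self]
  have hew : e ⬝ᵥ (A *ᵥ w) = 0 := by rw [hsym, hwe]
  have hfw : f ⬝ᵥ (A *ᵥ w) = 0 := by rw [hsym, hwf]
  have hdet : (Matrix.of ![e, f, w]).det = -1 := by
    have h1 := triple_product_eq_det e f w
    have h4 : (Matrix.of ![e, f, w]).det = Matrix.det ![e, f, w] := rfl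
    rw [h4, ← h1, triple_product_permutation, triple_product_permutation, hw, cross_dot_cross,
      dotProduct_comm (A *ᵥ e) e, hee, dotProduct_comm (A *ᵥ e) f, hfe,
      dotProduct_comm (A *ᵥ f) e, hef]
    ring
  refine ⟨(Matrix.of ![e, f, w])ᵀ, w ⬝ᵥ (A *ᵥ w), ?_, ?_⟩
  · rw [Matrix.det_transpose, hdet]
    exact neg_ne_zero.2 one_ne_zero
  · rw [Matrix.transpose_transpose]
    have h5 : ∀ a b : Fin 3, (Matrix.of ![e, f, w] * A * (Matrix.of ![e, f, w])ᵀ) a b =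
        (![e, f, w] a) ⬝ᵥ (A *ᵥ (![e, f, w] b)) := by
      intro a b
      rw [Matrix.mul_assoc, Matrix.mul_apply']
      rfl
    ext a b
    rw [h5]
    fin_cases a <;> fin_cases b <;> simp [hee, hef, hfe, hff, hwe, hwf, hew, hfw]

/-- Two isotropic ternary forms with the same determinant up to squares are congruent. -/
theorem congr (h2 : (2 : L) ≠ 0) (A B : Matrix (Fin 3) (Fin 3) L) (hA : Aᵀ = A) (hB : Bᵀ = B)
    (hdA : A.det ≠ 0) (hdB : B.det ≠ 0) (hs : IsSquare (A.det * B.det)) (h : SplM 1 A)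
    (h' : SplM 1 B) : ∃ k : Matrix (Fin 3) (Fin 3) L, k.det ≠ 0 ∧ kᵀ * A * k = B := by
  obtain ⟨P, c, hP, hPc⟩ := std h2 A hA hdA h
  obtain ⟨Q, c', hQ, hQc⟩ := std h2 B hB hdB h'
  have hc : P.det * A.det * P.det = -c := by
    have h1 := congrArg Matrix.det hPc
    rw [Matrix.det_mul, Matrix.det_mul, Matrix.det_transpose] at h1
    rw [h1, Matrix.det_fin_three]
    simp
  have hc' : Q.det * B.det * Q.det = -c' := by
    have h1 := congrArg Matrix.det hQc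
    rw [Matrix.det_mul, Matrix.det_mul, Matrix.det_transpose] at h1
    rw [h1, Matrix.det_fin_three]
    simp
  obtain ⟨s, hs⟩ := hs
  have hc0 : c ≠ 0 := by
    intro h0
    rw [h0, neg_zero] at hc
    exact mul_ne_zero (mul_ne_zero hP hdA) hP hc
  have hc0' : c' ≠ 0 := by
    intro h0
    rw [h0, neg_zero] at hc'
    exact mul_ne_zero (mul_ne_zero hQ hdB) hQ hc'
  obtain ⟨t, ht⟩ : ∃ t, t = P.det * Q.det * s := ⟨_, rfl⟩
  have htt : t * t = c * c' := by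
    have h1 : c * c' = (P.det * A.det * P.det) * (Q.det * B.det * Q.det) := by
      rw [hc, hc']
      ring
    rw [h1, ht]
    linear_combination (-(P.det * Q.det) ^ 2) * hs
  have ht0 : t ≠ 0 := by
    intro h0
    rw [h0, zero_mul] at htt
    exact mul_ne_zero hc0 hc0' htt.symm
  obtain ⟨D, hD⟩ : ∃ D : Matrix (Fin 3) (Fin 3) L, D = Matrix.diagonal ![1, 1, t / c] := ⟨_, rfl⟩
  have hDd : D.det = t / c := by
    rw [hD, Matrix.det_diagonal, Fin.prod_univ_three]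
    simp
  have hDD : Dᵀ * !![0, 1, 0; 1, 0, 0; 0, 0, c] * D = !![0, 1, 0; 1, 0, 0; 0, 0, c'] := by
    rw [hD, Matrix.diagonal_transpose]
    ext a b
    rw [Matrix.mul_diagonal, Matrix.diagonal_mul]
    have h6 : t / c * c * (t / c) = c' := by
      field_simp
      linear_combination htt
    fin_cases a <;> fin_cases b <;> simp [h6]
  have hQ1 : Q * Q⁻¹ = 1 := Matrix.mul_nonsing_inv _ (isUnit_iff_ne_zero.2 hQ)
  refine ⟨P * D * Q⁻¹, ?_, ?_⟩
  · rw [Matrix.det_mul, Matrix.det_mul, hDd, Matrix.det_nonsing_inv, Ring.inverse_eq_inv']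
    exact mul_ne_zero (mul_ne_zero hP (div_ne_zero ht0 hc0)) (inv_ne_zero hQ)
  · have h7 : (P * D * Q⁻¹)ᵀ * A * (P * D * Q⁻¹) = (Q⁻¹)ᵀ * (Dᵀ * (Pᵀ * A * P) * D) * Q⁻¹ := by
      simp only [Matrix.transpose_mul, Matrix.mul_assoc]
    rw [h7, hPc, hDD, ← hQc]
    have h8 : (Q⁻¹)ᵀ * (Qᵀ * B * Q) * Q⁻¹ = (Q * Q⁻¹)ᵀ * B * (Q * Q⁻¹) := by
      simp only [Matrix.transpose_mul, Matrix.mul_assoc]
    rw [h8, hQ1, Matrix.transpose_one, Matrix.one_mul, Matrix.mul_one]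

end Std

section Appr

variable {L : Type} [Field L] (O : ValuationSubring L)

/-- A common denominator. -/
theorem den (s : Finset L) : ∃ b : L, b ≠ 0 ∧ b ∈ O ∧ ∀ x ∈ s, b * x ∈ O := by
  classical
  induction s using Finset.induction_on with
  | empty => exact ⟨1, one_ne_zero, O.one_mem, fun x hx => absurd hx (Finset.notMem_empty x)⟩
  | insert y s _ ih =>
    obtain ⟨b, hb, hbO, hbs⟩ := ih
    obtain ⟨d, hd, hdO, hdy⟩ : ∃ d : L, d ≠ 0 ∧ d ∈ O ∧ d * y ∈ O := by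
      rcases O.mem_or_inv_mem y with hy | hy
      · exact ⟨1, one_ne_zero, O.one_mem, by rwa [one_mul]⟩
      · by_cases hy0 : y = 0
        · exact ⟨1, one_ne_zero, O.one_mem, by rw [hy0, mul_zero]; exact O.zero_mem⟩
        · exact ⟨y⁻¹, inv_ne_zero hy0, hy, by rw [inv_mul_cancel₀ hy0]; exact O.one_mem⟩
    refine ⟨b * d, mul_ne_zero hb hd, O.mul_mem _ _ hbO hdO, fun x hx => ?_⟩
    rcases Finset.mem_insert.1 hx with rfl | hx
    · rw [mul_assoc]
      exact O.mul_mem _ _ hbO hdy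
    · rw [mul_comm b, mul_assoc]
      exact O.mul_mem _ _ hdO (hbs x hx)

theorem denM {ι : Type} [Fintype ι] (M : Matrix ι ι L) : ∃ b : L, b ≠ 0 ∧ b ∈ O ∧
    ∀ i j, b * M i j ∈ O := by
  classical
  obtain ⟨b, h1, h2, h3⟩ := den O (Finset.univ.image fun p : ι × ι => M p.1 p.2)
  exact ⟨b, h1, h2, fun i j => h3 _ (Finset.mem_image.2 ⟨(i, j), Finset.mem_univ _, rfl⟩)⟩

/-- The matrices over `O`. -/
def MO {ι : Type} (M : Matrix ι ι L) : Prop := ∀ i j, M i j ∈ O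

variable {O}

theorem MO.mul {ι : Type} [Fintype ι] {M N : Matrix ι ι L} (hM : MO O M) (hN : MO O N) :
    MO O (M * N) := fun i j => by
  rw [Matrix.mul_apply]
  exact sum_mem fun x _ => O.mul_mem _ _ (hM i x) (hN x j)

theorem MO.add {ι : Type} {M N : Matrix ι ι L} (hM : MO O M) (hN : MO O N) :
    MO O (M + N) := fun i j => O.add_mem _ _ (hM i j) (hN i j)

theorem MO.tr {ι : Type} {M : Matrix ι ι L} (hM : MO O M) : MO O Mᵀ := fun i j => hM j i

theorem MO.smul {ι : Type} {M : Matrix ι ι L} {c : L} (hc : c ∈ O) (hM : MO O M) :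
    MO O (c • M) := fun i j => O.mul_mem _ _ hc (hM i j)

end Appr

/-- Density. -/
theorem near {K : Type} [Field K] (I : Set K) (L : Type) [Field L] (O : ValuationSubring L)
    (ι : K →+* L) (hC : Cpl K L O ι) (hI : ∀ x : K, ι x ∈ O ↔ x ∈ I) {N : ℕ}
    (A B : Matrix (Fin N) (Fin N) K) (k : Matrix (Fin N) (Fin N) L)
    (hk : k.det ≠ 0) (h : kᵀ * A.map ι * k = B.map ι) : Near I A B := by
  intro a ha
  have ha' : ι a ≠ 0 := (map_ne_zero ι).2 ha
  obtain ⟨b₁, hb₁, hb₁O, hb₁M⟩ := denM O ((ι a)⁻¹ • B.map ι)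
  obtain ⟨b₂, hb₂, hb₂O, hb₂M⟩ := denM O ((B.map ι)⁻¹)
  -- a non-unit
  obtain ⟨p, hp0, hpO, hpi⟩ : ∃ p : L, p ≠ 0 ∧ p ∈ O ∧ p⁻¹ ∉ O := by
    have := hC.dvr
    obtain ⟨x, hx⟩ := IsDiscreteValuationRing.exists_irreducible O
    refine ⟨x, ?_, x.2, ?_⟩
    · intro h0
      exact hx.ne_zero (Subtype.ext h0)
    · intro h0
      apply hx.not_isUnit
      have h1 : (x : L) ≠ 0 := fun h0 => hx.ne_zero (Subtype.ext h0)
      exact IsUnit.of_mul_eq_one ⟨(x : L)⁻¹, h0⟩ (Subtype.ext (mul_inv_cancel₀ h1))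
  obtain ⟨b, hb⟩ : ∃ b, b = b₁ * p := ⟨_, rfl⟩
  have hb0 : b ≠ 0 := by rw [hb]; exact mul_ne_zero hb₁ hp0
  obtain ⟨d, hd, hdO, hdM⟩ := denM O (b⁻¹ • k⁻¹)
  have hex : ∀ i j : Fin N, ∃ x : K, (k i j - ι x) / d ∈ O := fun i j => hC.dense _ _ hd
  choose x hx using hex
  obtain ⟨m, hm⟩ : ∃ m : Matrix (Fin N) (Fin N) K, m = Matrix.of x := ⟨_, rfl⟩
  obtain ⟨C, hCC⟩ : ∃ C : Matrix (Fin N) (Fin N) L, C = d⁻¹ • (m.map ι - k) := ⟨_, rfl⟩
  have hCO : MO O C := by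
    intro i j
    have h1 : C i j = -((k i j - ι (x i j)) / d) := by
      rw [hCC, Matrix.smul_apply, Matrix.sub_apply, Matrix.map_apply, hm, smul_eq_mul,
        Matrix.of_apply]
      field_simp
      ring
    rw [h1]
    exact O.neg_mem _ (hx i j)
  have hmk : m.map ι = k + d • C := by
    rw [hCC, smul_smul, mul_inv_cancel₀ hd, one_smul]
    abel
  obtain ⟨E, hE⟩ : ∃ E : Matrix (Fin N) (Fin N) L, E = (d • (b⁻¹ • k⁻¹)) * C := ⟨_, rfl⟩
  have hEO : MO O E := by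
    rw [hE]
    exact MO.mul (fun i j => hdM i j) hCO
  have hkk : k * k⁻¹ = 1 := Matrix.mul_nonsing_inv _ (isUnit_iff_ne_zero.2 hk)
  have hmE : m.map ι = k * (1 + b • E) := by
    rw [hmk, hE, Matrix.mul_add, Matrix.mul_one, Matrix.smul_mul, Matrix.smul_mul, smul_smul,
      smul_smul, show b * d = d * b by ring, mul_assoc, mul_inv_cancel₀ hb0, mul_one,
      Matrix.mul_smul, ← Matrix.mul_assoc, hkk, Matrix.one_mul]
  have hBE : (m.map ι)ᵀ * A.map ι * m.map ι = (1 + b • E)ᵀ * B.map ι * (1 + b • E) := by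
    rw [hmE, Matrix.transpose_mul, ← h]
    simp only [Matrix.mul_assoc]
  have hbE : ∀ i j, (b • E) i j ∈ O := fun i j => by
    rw [hb, Matrix.smul_apply, smul_eq_mul]
    exact O.mul_mem _ _ (O.mul_mem _ _ hb₁O hpO) (hEO i j)
  have hdet1 : (1 + b • E).det ≠ 0 := by
    obtain ⟨M, hM⟩ : ∃ M : Matrix (Fin N) (Fin N) O, M = Matrix.of fun i j => ⟨(b • E) i j, hbE i j⟩ :=
      ⟨_, rfl⟩
    have h1 : (algebraMap O L).mapMatrix (1 + M) = 1 + b • E := by
      rw [map_add, map_one, hM]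
      rfl
    have h2 : (IsLocalRing.residue O).mapMatrix (1 + M) = 1 := by
      rw [map_add, map_one]
      have h3 : (IsLocalRing.residue O).mapMatrix M = 0 := by
        ext i j
        rw [RingHom.mapMatrix_apply, Matrix.map_apply, Matrix.zero_apply,
          IsLocalRing.residue_eq_zero_iff, IsLocalRing.mem_maximalIdeal, mem_nonunits_iff]
        intro hu
        obtain ⟨v, hv⟩ := isUnit_iff_exists_inv.1 hu
        apply hpi
        have h4 : (b • E) i j * (v : L) = 1 := by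
          have h5 := congrArg Subtype.val hv
          rw [hM] at h5
          exact h5
        have h6 : p⁻¹ = b₁ * E i j * v := by
          rw [hb, Matrix.smul_apply, smul_eq_mul] at h4
          field_simp
          linear_combination -h4
        rw [h6]
        exact O.mul_mem _ _ (O.mul_mem _ _ hb₁O (hEO i j)) v.2
      rw [h3, add_zero]
    intro h0
    have h3 : (1 + M).det = 0 := by
      have h4 : algebraMap O L (1 + M).det = 0 := by
        rw [RingHom.map_det, h1, h0]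
      have h5 : Function.Injective (algebraMap O L) := IsFractionRing.injective O L
      exact h5 (by rw [h4, map_zero])
    have h4 : IsLocalRing.residue O (1 + M).det = 1 := by
      rw [RingHom.map_det, h2, Matrix.det_one]
    rw [h3, map_zero] at h4
    exact zero_ne_one h4
  refine ⟨m, ?_, ?_⟩
  · intro h0
    have h1 : (m.map ι).det = 0 := by
      have := (RingHom.map_det ι m).symm
      rw [h0, map_zero] at this
      exact this
    rw [hmE, Matrix.det_mul] at h1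
    exact mul_ne_zero hk hdet1 h1
  · obtain ⟨B', hB'⟩ : ∃ B' : Matrix (Fin N) (Fin N) L, B' = b₁ • ((ι a)⁻¹ • B.map ι) := ⟨_, rfl⟩
    have hB'O : MO O B' := by
      rw [hB']
      exact fun i j => hb₁M i j
    have hkey : (ι a)⁻¹ • ((1 + b • E)ᵀ * B.map ι * (1 + b • E) - B.map ι) =
        p • (Eᵀ * B' + B' * E + b • (Eᵀ * B' * E)) := by
      rw [hB', hb, Matrix.transpose_add, Matrix.transpose_one, Matrix.transpose_smul,
        Matrix.add_mul, Matrix.one_mul, Matrix.mul_add, Matrix.mul_one, Matrix.add_mul]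
      simp only [Matrix.smul_mul, Matrix.mul_smul, smul_smul, smul_add, smul_sub]
      rw [show (ι a)⁻¹ * (b₁ * p * (b₁ * p)) = p * (b₁ * p * (b₁ * (ι a)⁻¹)) by ring,
        show (ι a)⁻¹ * (b₁ * p) = p * (b₁ * (ι a)⁻¹) by ring]
      abel
    intro i j
    rw [← hI, map_div₀]
    have h1 : ι ((mᵀ * A * m - B) i j) / ι a =
        ((ι a)⁻¹ • ((1 + b • E)ᵀ * B.map ι * (1 + b • E) - B.map ι) :
          Matrix (Fin N) (Fin N) L) i j := by
      rw [← hBE, Matrix.smul_apply, Matrix.sub_apply, Matrix.sub_apply, smul_eq_mul, map_sub,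
        Matrix.map_apply]
      have h2 : ((m.map ι)ᵀ * A.map ι * m.map ι) i j = ι ((mᵀ * A * m) i j) := by
        rw [← Matrix.transpose_map, ← Matrix.map_mul, ← Matrix.map_mul, Matrix.map_apply]
      rw [h2]
      field_simp
    rw [h1, hkey]
    have h3 : MO O (p • (Eᵀ * B' + B' * E + b • (Eᵀ * B' * E))) := by
      refine MO.smul hpO (MO.add (MO.add (MO.mul hEO.tr hB'O) (MO.mul hB'O hEO))
        (MO.smul ?_ (MO.mul (MO.mul hEO.tr hB'O) hEO)))
      rw [hb]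
      exact O.mul_mem _ _ hb₁O hpO
    exact h3 i j

/-- ISO2. -/
theorem iso2 : ISO2Stmt := by
  intro K _ I L _ O ι hC hI h2 A B hA hB hdA hdB hs h h'
  have hm : ∀ M : Matrix (Fin 3) (Fin 3) K, (M.map ι).det = ι M.det := fun M =>
    (RingHom.map_det ι M).symm
  have h2' : (2 : L) ≠ 0 := by
    intro h0
    apply h2
    apply ι.injective
    rw [map_ofNat, h0, map_zero]
  obtain ⟨k, hk, hkk⟩ := congr h2' (A.map ι) (B.map ι)
    (by rw [← Matrix.transpose_map, hA]) (by rw [← Matrix.transpose_map, hB])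
    (by rw [hm]; exact (map_ne_zero ι).2 hdA) (by rw [hm]; exact (map_ne_zero ι).2 hdB)
    (by
      rw [hm, hm, ← map_mul]
      exact hs.map ι) h h'
  exact near I L O ι hC hI A B k hk hkk

end Pool.NF.Iso25
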