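import Pool.Agent.H2.NF.S3
import Pool.Agent.H6.HYP.SQI
import Pool.Agent.H70.HYP.NMU

/-!
# NF, row LSR: a real place with one real root
-/

set_option autoImplicit false

namespace Pool.NF

open Polynomial Matrix Pool.HYP Pool.TOW Pool.AVS Pool.T1

/-- LSR. -/
theorem lsr : LSRStmt := by
  intro f h hf hn hsq huniq hco hN
  obtain ⟨r, hr, hru⟩ := huniq
  obtain ⟨q, hq⟩ : ∃ q, f = (X - C r) * q := dvd_iff_isRoot.2 hr
  have hqm : q.Monic := (monic_X_sub_C r).of_mul_monic_left (hq ▸ hf)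
  have hqn : q.natDegree = 2 := by
    have h1 := (monic_X_sub_C r).natDegree_mul hqm
    rw [← hq, hn, natDegree_X_sub_C] at h1
    omega
  have hqr : ∀ y : ℝ, q.eval y ≠ 0 := by
    intro y hy
    have h1 : f.eval y = 0 := by rw [hq, eval_mul, hy, mul_zero]
    have h2 : y = r := hru y h1
    rw [h2] at hy
    obtain ⟨q', hq'⟩ := dvd_iff_isRoot.2 (show q.IsRoot r from hy)
    have h3 : (X - C r) * (X - C r) ∣ f := ⟨q', by rw [hq, hq']; ring⟩
    have h4 := hsq _ h3
    exact not_isUnit_X_sub_C r h4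
  have hqi : Irreducible q := by
    have h1 : q.roots = 0 := by
      rw [Multiset.eq_zero_iff_forall_notMem]
      intro y hy
      exact hqr y (isRoot_of_mem_roots hy)
    exact (hqm.irreducible_iff_roots_eq_zero_of_degree_le_three (by omega) (by omega)).2 h1
  obtain ⟨z, hz⟩ : ∃ z : ℂ, aeval z q = 0 := IsAlgClosed.exists_aeval_eq_zero ℂ q (by
    rw [degree_eq_natDegree hqm.ne_zero, hqn]
    norm_num)
  have hzq : ∀ p : ℝ[X], aeval z p = 0 → q ∣ p := by
    intro p hp
    rw [minpoly.eq_of_irreducible_of_monic hqi hz hqm]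
    exact minpoly.dvd ℝ z hp
  have hzi : z.im ≠ 0 := by
    intro h0
    have h1 : z = (algebraMap ℝ ℂ) z.re := by
      apply Complex.ext
      · rfl
      · rw [h0]; rfl
    rw [h1, aeval_algebraMap_apply] at hz
    have h2 : aeval z.re q = 0 := (algebraMap ℝ ℂ).injective (by rw [hz, map_zero])
    rw [coe_aeval_eq_eval] at h2
    exact hqr _ h2
  have hlin : ∀ w : ℂ, ∃ y : ℝ[X], aeval z y = w := by
    intro w
    refine ⟨C (w.re - w.im / z.im * z.re) + C (w.im / z.im) * X, ?_⟩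
    rw [map_add, map_mul, aeval_C, aeval_C, aeval_X]
    apply Complex.ext
    · simp
    · simp
      field_simp
  obtain ⟨w, hw⟩ := IsAlgClosed.exists_pow_nat_eq (aeval z h) (n := 2) two_pos
  have hhz : aeval z h ≠ 0 := by
    intro h0
    obtain ⟨a, b, hab⟩ := hco
    have h1 := congrArg (aeval z) hab
    rw [map_add, map_mul, map_mul, h0, hq, map_mul, hz, mul_zero, mul_zero, mul_zero, add_zero,
      map_one] at h1
    exact zero_ne_one h1
  have hhr : h.eval r ≠ 0 := by
    intro h0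
    obtain ⟨a, b, hab⟩ := hco
    have h1 := congrArg (eval r) hab
    have h2 : f.eval r = 0 := hr
    rw [eval_add, eval_mul, eval_mul, h0, h2, mul_zero, mul_zero, add_zero, eval_one] at h1
    exact zero_ne_one h1
  have hw0 : w ≠ 0 := by
    intro h0
    rw [h0] at hw
    apply hhz
    rw [← hw]
    norm_num
  obtain ⟨y, hy⟩ := hlin w
  have hqy : q ∣ h - y ^ 2 := hzq _ (by rw [map_sub, map_pow, hy, hw, sub_self])
  have hpos : 0 < h.eval r := by
    have h1 : Algebra.norm ℝ (AdjoinRoot.mk f h) =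
        h.eval r * (Algebra.norm ℝ (AdjoinRoot.mk q y)) ^ 2 := by
      rw [hq, nmu.1 ℝ _ _ _ (monic_X_sub_C r) hqm, nmu.2.1]
      congr 1
      rw [AdjoinRoot.mk_eq_mk.2 hqy, map_pow, map_pow]
    have h2 : Algebra.norm ℝ (AdjoinRoot.mk q y) ≠ 0 := by
      have : Fact (Irreducible q) := ⟨hqi⟩
      have : FiniteDimensional ℝ (AdjoinRoot q) := (AdjoinRoot.powerBasis hqm.ne_zero).finite
      intro h0
      rw [Algebra.norm_eq_zero_iff, AdjoinRoot.mk_eq_zero] at h0
      obtain ⟨y', hy'⟩ := h0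
      apply hw0
      rw [← hy, hy', map_mul, hz, zero_mul]
    obtain ⟨m, hm⟩ := hN
    rw [h1] at hm
    have h3 : 0 < (Algebra.norm ℝ (AdjoinRoot.mk q y)) ^ 2 := by positivity
    have h4 : 0 ≤ h.eval r := by
      by_contra h5
      push Not at h5
      nlinarith [mul_self_nonneg m]
    exact lt_of_le_of_ne h4 hhr.symm
  obtain ⟨u, hu⟩ := hlin w⁻¹
  obtain ⟨s, hs⟩ : ∃ s, s = u + q * C ((1 / Real.sqrt (h.eval r) - u.eval r) / q.eval r) :=
    ⟨_, rfl⟩
  have hsz : aeval z s = w⁻¹ := by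
    rw [hs, map_add, map_mul, hz, zero_mul, add_zero, hu]
  have hsr : s.eval r = 1 / Real.sqrt (h.eval r) := by
    have h1 := hqr r
    rw [hs, eval_add, eval_mul, eval_C]
    field_simp
    ring
  have hdvd : f ∣ 1 - h * s ^ 2 := by
    have h1 : q ∣ 1 - h * s ^ 2 := hzq _ (by
      rw [map_sub, map_mul, map_pow, hsz, ← hw, map_one]
      field_simp
      ring)
    have h2 : X - C r ∣ 1 - h * s ^ 2 := by
      rw [dvd_iff_isRoot, IsRoot.def, eval_sub, eval_mul, eval_pow, hsr, eval_one, div_pow,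
        Real.sq_sqrt hpos.le]
      field_simp
      ring
    have h3 : IsCoprime (X - C r) q := by
      rw [← EuclideanDomain.gcd_isUnit_iff]
      have h4 : IsCoprime (X - C r) q := by
        refine (irreducible_X_sub_C r).coprime_iff_not_dvd.2 ?_
        intro h5
        exact hqr r (dvd_iff_isRoot.1 h5)
      exact EuclideanDomain.gcd_isUnit_iff.2 h4
    rw [hq]
    exact h3.mul_dvd h2 h1
  have hcop : IsCoprime s f := by
    obtain ⟨c, hc⟩ := hdvd
    exact ⟨h * s, c, by linear_combination -hc⟩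
  obtain ⟨a, ha, ha0, -⟩ := sqi ℝ 3 f h 1 s hf hn hcop hdvd
  exact ⟨a, ha, ha0.symm⟩

end Pool.NF
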